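import Pool.Agent.ATW.Stmts

/-!
# Row MMV: the inner product in the section of a regular element
-/

open scoped BigOperators

noncomputable section

namespace Pool.Agent.PP.TW.H3

open Pool.Agent.Helper51_AWC Pool.Agent.Helper79_WRA Pool.Agent.PP Pool.Agent.PP.KF
open Pool.Agent.PP.K9 Pool.Agent.PP.K9.H97 Pool.Agent.PP.H75 Pool.Agent.PP.T3 Pool.Agent.PP.T2
open Pool.Agent.PP.T5 Pool.Agent.PP.TB
open Pool.Agent.PP.T8 (rs pw fv rd Ip Rv vv Dat Fr)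

attribute [local instance] Ideal.Quotient.field

section sums

variable {G : Type} [Group G] [Finite G]

/-- a sum over the regular elements of a subgroup -/
theorem sum_reg (ℓ : ℕ) (C : Subgroup G) (f : G → ℂ) :
    ∑ᶠ (s : G) (_ : s ∈ C ∧ Reg ℓ s), f s = ∑ᶠ (s : C) (_ : Reg ℓ s), f s := by
  classical
  rw [H75.sum_sub C (fun s => ∑ᶠ (_ : s ∈ C ∧ Reg ℓ s), f s)
    (fun x hx => by rw [finsum_eq_if, if_neg (fun h => hx h.1)])]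
  refine finsum_congr fun s => ?_
  have h1 : ((s : G) ∈ C ∧ Reg ℓ (s : G)) = Reg ℓ s := by
    apply propext
    unfold Reg
    rw [Subgroup.orderOf_coe]
    exact ⟨fun h => h.2, fun h => ⟨s.2, h⟩⟩
  exact finsum_congr_Prop h1 fun _ => rfl

end sums

/-- MMV -/
theorem mmv (hLn1 : Ln1Stmt) (hLsb : LsbStmt) (hNil : NilStmt) (hRg1 : T8.Rg1Stmt)
    (hKer : KerStmt) (hLrk : LrkStmt) : MmvStmt := by
  classical
  intro ℓ _ M _ hM G _ _ e V γ b d c ε hD u hu χ hχ ψ hψ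
  have hL := hD.lc u hu
  obtain ⟨hld, hix, hcard, -, -⟩ := hLsb ℓ M hM G e V γ hD.ld u hu.1 (b u) hL
  have hix1 : ix (V.subgroupOf (Cu u)) (fun t : Cu u => γ t) = 1 := by
    rw [hix]
    exact Subgroup.relIndex_eq_one.2 hu.2.2
  obtain ⟨-, hnc, -⟩ := hNil ℓ M hM (Cu u) _ _ _ hld hix1
  have hln := hLn1 ℓ M hM (Cu u) _ _ _ hld hix1
  have hag := hRg1 ℓ M hM (Cu u) _ _ _ hld hix1
  obtain ⟨hd0, hd⟩ := hD.dg u hu
  rw [hcard] at hnc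
  have := Fintype.ofFinite (Cu u)
  have hfin : (IrrE M (fun t : Cu u => b u t)).Finite := irr_finite'.subset fun _ h => h.1
  have hne : (IrrE M (fun t : Cu u => b u t)).Nonempty := by
    rw [← Set.ncard_pos hfin, hnc]
    exact Nat.card_pos
  obtain ⟨κ₀, hκ₀⟩ := hne
  have hC : (Nat.card (Cu u) : ℂ) ≠ 0 := by exact_mod_cast (Nat.card_pos (α := Cu u)).ne'
  have hV : (Nat.card V : ℂ) ≠ 0 := by exact_mod_cast (Nat.card_pos (α := V)).ne'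
  have hdC : (d u : ℂ) ≠ 0 := Nat.cast_ne_zero.2 hd0.ne'
  -- the kernel
  have hreg : ∀ s : G, (hs : s ∈ Cu u) → Reg ℓ s → Reg ℓ (⟨s, hs⟩ : Cu u) := by
    intro s hs h
    unfold Reg at *
    rwa [← Subgroup.orderOf_coe]
  have hkr : ∀ s ∈ Cu u, Reg ℓ s → ∀ c ∈ Cu u, Reg ℓ c → T5.kr M (Cu u) (b u) s c =
      (Nat.card V : ℂ) * (H75.ext0 (Cu u) κ₀ s * starRingEnd ℂ (H75.ext0 (Cu u) κ₀ c)) := by
    intro s hs hs' c hc hc'
    unfold T5.kr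
    have h1 : ∀ κ ∈ IrrE M (fun t : Cu u => b u t),
        H75.ext0 (Cu u) κ s * starRingEnd ℂ (H75.ext0 (Cu u) κ c) =
        H75.ext0 (Cu u) κ₀ s * starRingEnd ℂ (H75.ext0 (Cu u) κ₀ c) := by
      intro κ hκ
      have e1 : H75.ext0 (Cu u) κ s = H75.ext0 (Cu u) κ₀ s := by
        have h2 := hag κ hκ κ₀ hκ₀ ⟨s, hs⟩ (hreg s hs hs')
        have h3 := H75.ext0_apply (Cu u) κ ⟨s, hs⟩
        have h4 := H75.ext0_apply (Cu u) κ₀ ⟨s, hs⟩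
        exact h3.trans (h2.trans h4.symm)
      have e2 : H75.ext0 (Cu u) κ c = H75.ext0 (Cu u) κ₀ c := by
        have h2 := hag κ hκ κ₀ hκ₀ ⟨c, hc⟩ (hreg c hc hc')
        have h3 := H75.ext0_apply (Cu u) κ ⟨c, hc⟩
        have h4 := H75.ext0_apply (Cu u) κ₀ ⟨c, hc⟩
        exact h3.trans (h2.trans h4.symm)
      rw [e1, e2]
    rw [finsum_mem_congr rfl h1, finsum_mem_eq_finite_toFinset_sum _ hfin, Finset.sum_const,
      nsmul_eq_mul, ← Set.ncard_eq_toFinset_card _ hfin, hnc]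
  have h1C : (1 : G) ∈ Cu u := Subgroup.one_mem _
  have hreg1 : Reg ℓ (1 : G) := by
    unfold Reg
    rw [orderOf_one]
    exact Nat.coprime_one_left ℓ
  -- the functions `s ↦ χ(u s b)`
  have hgv : ∀ θ ∈ Irr G, ∀ s ∈ Cu u, Reg ℓ s → gv M (Cu u) (u * s) (b u) θ =
      H75.ext0 (Cu u) κ₀ s * vv M b d u θ := by
    intro θ hθ
    obtain ⟨X, hX⟩ : ∃ X : ℂ, X = (Nat.card (Cu u) : ℂ)⁻¹ *
        ∑ᶠ (c : G) (_ : c ∈ Cu u ∧ Reg ℓ c), (Nat.card V : ℂ) *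
          (starRingEnd ℂ (H75.ext0 (Cu u) κ₀ c) * θ (u * c)) := ⟨_, rfl⟩
    have h2 : ∀ s ∈ Cu u, Reg ℓ s → gv M (Cu u) (u * s) (b u) θ =
        H75.ext0 (Cu u) κ₀ s * X := by
      intro s hs hs'
      rw [hKer ℓ M hM G u u (fun c hc => (Subgroup.mem_centralizer_singleton_iff.1 hc).symm)
        (b u) hL.blk.ix s hs hs' θ hθ, hX, ← mul_assoc, mul_comm (H75.ext0 (Cu u) κ₀ s),
        mul_assoc]
      congr 1
      have h3 : ∑ᶠ (c : G) (_ : c ∈ Cu u ∧ Reg ℓ c), T5.kr M (Cu u) (b u) s c * θ (u * c) =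
          ∑ᶠ c ∈ {c : G | c ∈ Cu u ∧ Reg ℓ c}, H75.ext0 (Cu u) κ₀ s * ((Nat.card V : ℂ) *
            (starRingEnd ℂ (H75.ext0 (Cu u) κ₀ c) * θ (u * c))) := by
        refine finsum_mem_congr rfl fun c hc => ?_
        rw [hkr s hs hs' c hc.1 hc.2]
        ring
      rw [h3, ← mul_finsum_mem]
      rfl
    have h3 := h2 1 h1C hreg1
    rw [mul_one] at h3
    have h4 : H75.ext0 (Cu u) κ₀ 1 = d u := (H75.ext0_apply (Cu u) κ₀ 1).trans (hd κ₀ hκ₀)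
    have h5 : vv M b d u θ = X := by
      unfold T8.vv
      rw [h3, h4, mul_div_cancel_left₀ _ hdC]
    rw [h5]
    exact h2
  -- the sum of the squares
  have hsq : (Nat.card V : ℂ) * ((Nat.card (Cu u) : ℂ)⁻¹ *
      ∑ᶠ (s : G) (_ : s ∈ Cu u ∧ Reg ℓ s), H75.ext0 (Cu u) κ₀ s *
        starRingEnd ℂ (H75.ext0 (Cu u) κ₀ s)) = 1 := by
    have h1 := hLrk ℓ M hM (Cu u) (fun t : Cu u => b u t) hL.blk.blk.1
    rw [hln, Nat.cast_one] at h1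
    rw [h1, ← mul_assoc, mul_comm (Nat.card V : ℂ), mul_assoc]
    congr 1
    rw [sum_reg ℓ (Cu u) (fun s => H75.ext0 (Cu u) κ₀ s * starRingEnd ℂ (H75.ext0 (Cu u) κ₀ s))]
    have h2 : ∑ᶠ (s : Cu u) (_ : Reg ℓ s), ∑ᶠ χ ∈ IrrE M (fun t : Cu u => b u t),
        χ s * starRingEnd ℂ (χ s) = ∑ᶠ s ∈ {s : Cu u | Reg ℓ s}, (Nat.card V : ℂ) *
          (H75.ext0 (Cu u) κ₀ s * starRingEnd ℂ (H75.ext0 (Cu u) κ₀ s)) := by
      refine finsum_mem_congr rfl fun s hs => ?_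
      have h3 : ∀ κ ∈ IrrE M (fun t : Cu u => b u t), κ s * starRingEnd ℂ (κ s) =
          H75.ext0 (Cu u) κ₀ s * starRingEnd ℂ (H75.ext0 (Cu u) κ₀ s) := by
        intro κ hκ
        rw [hag κ hκ κ₀ hκ₀ s hs, H75.ext0_apply]
      rw [finsum_mem_congr rfl h3, finsum_mem_eq_finite_toFinset_sum _ hfin, Finset.sum_const,
        nsmul_eq_mul, ← Set.ncard_eq_toFinset_card _ hfin, hnc]
    rw [h2, ← mul_finsum_mem]
    rfl
  unfold mm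
  have h6 : ∑ᶠ (s : G) (_ : s ∈ Cu u ∧ Reg ℓ s), gv M (Cu u) (u * s) (b u) χ *
      starRingEnd ℂ (gv M (Cu u) (u * s) (b u) ψ) =
      ∑ᶠ s ∈ {s : G | s ∈ Cu u ∧ Reg ℓ s}, (vv M b d u χ * starRingEnd ℂ (vv M b d u ψ)) *
        (H75.ext0 (Cu u) κ₀ s * starRingEnd ℂ (H75.ext0 (Cu u) κ₀ s)) := by
    refine finsum_mem_congr rfl fun s hs => ?_
    rw [hgv χ hχ s hs.1 hs.2, hgv ψ hψ s hs.1 hs.2, map_mul]
    ring
  rw [h6, ← mul_finsum_mem]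
  have h7 : ∑ᶠ s ∈ {s : G | s ∈ Cu u ∧ Reg ℓ s}, H75.ext0 (Cu u) κ₀ s *
      starRingEnd ℂ (H75.ext0 (Cu u) κ₀ s) = ∑ᶠ (s : G) (_ : s ∈ Cu u ∧ Reg ℓ s),
        H75.ext0 (Cu u) κ₀ s * starRingEnd ℂ (H75.ext0 (Cu u) κ₀ s) := rfl
  rw [h7]
  linear_combination (vv M b d u χ * starRingEnd ℂ (vv M b d u ψ)) * hsq

end Pool.Agent.PP.TW.H3
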